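import Pool.Agent.H90.BX.FDef

set_option autoImplicit false

/-! Abstract classification of the present types (paper h90_be_paper.md, H5). -/

namespace Pool.H90BX.H74

open Finset
open scoped Classical

variable {r : ℕ}

/-- the family of present types with weights -/
structure Ab (psi : Fin r → Fin r) (Pr : Finset (Finset (Fin r)))
    (w : Finset (Fin r) → ℝ) (n d : ℝ) : Prop where
  inv : ∀ A, psi (psi A) = A
  two : ∀ T ∈ Pr, ∃ x y, T = {x, y}
  w0 : ∀ T, 0 ≤ w T
  compat : ∀ T ∈ Pr, ∀ T' ∈ Pr, ∃ a ∈ T, psi a ∈ T'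
  half : ∀ x y, x ≠ y → ({x, y} : Finset (Fin r)) ∈ Pr →
    (1 / 2 - d) * n ≤ ∑ T ∈ Pr.filter (fun T => psi x ∈ T), w T
  tot : ∑ T ∈ Pr, w T ≤ n
  big : (1 - d) * n ≤ ∑ T ∈ Pr, w T
  n0 : 0 < n
  d0 : 0 ≤ d
  d1 : d ≤ 1 / 100

theorem pair_mem {a x y : Fin r} (h : a ∈ ({x, y} : Finset (Fin r))) :
    ∃ z, ({x, y} : Finset (Fin r)) = {a, z} := by
  rcases mem_insert.1 h with rfl | h
  · exact ⟨y, rfl⟩
  · rw [mem_singleton] at h
    subst h
    exact ⟨x, pair_comm _ _⟩

variable {psi : Fin r → Fin r} {Pr : Finset (Finset (Fin r))} {w : Finset (Fin r) → ℝ} {n d : ℝ}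

theorem Ab.mem (h : Ab psi Pr w n d) {T : Finset (Fin r)} (hT : T ∈ Pr) {a : Fin r} (ha : a ∈ T) :
    ∃ z, T = {a, z} := by
  obtain ⟨x, y, rfl⟩ := h.two T hT
  exact pair_mem ha

theorem Ab.half_pos (h : Ab psi Pr w n d) : 0 < (1 / 2 - d) * n := by
  have h1 := h.n0; have h2 := h.d1
  exact mul_pos (by linarith) h1

theorem Ab.nonempty (h : Ab psi Pr w n d) : Pr.Nonempty := by
  by_contra hne
  rw [not_nonempty_iff_eq_empty] at hne
  have h1 := h.big
  rw [hne, sum_empty] at h1
  have h2 := h.n0; have h3 := h.d1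
  have h4 : 0 < (1 - d) * n := mul_pos (by linarith) h2
  linarith

/-- if all sets of Pr containing psi x are equal to T then T is heavy -/
theorem Ab.heavy (h : Ab psi Pr w n d) {x y : Fin r} (hxy : x ≠ y)
    (hP : ({x, y} : Finset (Fin r)) ∈ Pr) {T : Finset (Fin r)}
    (hT : ∀ T' ∈ Pr, psi x ∈ T' → T' = T) : (1 / 2 - d) * n ≤ w T := by
  refine (h.half x y hxy hP).trans ?_
  have h1 : Pr.filter (fun T => psi x ∈ T) ⊆ {T} := by
    intro T' hT'
    rw [mem_filter] at hT'
    rw [mem_singleton]
    exact hT T' hT'.1 hT'.2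
  refine (sum_le_sum_of_subset_of_nonneg h1 (fun T' _ _ => h.w0 T')).trans ?_
  rw [sum_singleton]

theorem Ab.exists_of_half (h : Ab psi Pr w n d) {x y : Fin r} (hxy : x ≠ y)
    (hP : ({x, y} : Finset (Fin r)) ∈ Pr) : ∃ T ∈ Pr, psi x ∈ T := by
  by_contra hne
  push Not at hne
  have h1 := h.half x y hxy hP
  rw [filter_false_of_mem hne, sum_empty] at h1
  have := h.half_pos
  linarith

/-- CASE P -/
theorem Ab.caseP (h : Ab psi Pr w n d) (hfix : ∀ T ∈ Pr, ∀ a ∈ T, psi a = a) :
    ∃ K : Finset (Fin r), K.card ≤ 3 ∧ (∀ A ∈ K, psi A = A) ∧ (∀ T ∈ Pr, T ⊆ K) ∧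
      ((∃ a, K = {a}) ∨ (∃ a b, a ≠ b ∧ K = {a, b} ∧ ({a, b} : Finset (Fin r)) ∈ Pr) ∨
       (∃ a b c, a ≠ b ∧ a ≠ c ∧ b ≠ c ∧ K = {a, b, c} ∧ ({a, b} : Finset (Fin r)) ∈ Pr ∧
         ({a, c} : Finset (Fin r)) ∈ Pr ∧
         (1 - 2 * d) * n ≤ w {a, b} + w {a, c} +
           (if ({b, c} : Finset (Fin r)) ∈ Pr then w {b, c} else 0))) := by
  have hint : ∀ T ∈ Pr, ∀ T' ∈ Pr, ∃ a ∈ T, a ∈ T' := by
    intro T hT T' hT'
    obtain ⟨a, ha, hb⟩ := h.compat T hT T' hT'
    rw [hfix T hT a ha] at hb
    exact ⟨a, ha, hb⟩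
  obtain ⟨T0, hT0⟩ := h.nonempty
  by_cases hstar : ∃ a, ∀ T ∈ Pr, a ∈ T
  · obtain ⟨a, ha⟩ := hstar
    have hpa : psi a = a := hfix T0 hT0 a (ha T0 hT0)
    let L : Finset (Fin r) := univ.filter (fun b => b ≠ a ∧ ({a, b} : Finset (Fin r)) ∈ Pr)
    have hL : ∀ b, b ∈ L ↔ b ≠ a ∧ ({a, b} : Finset (Fin r)) ∈ Pr := fun b => by
      simp [L]
    have hpb : ∀ b ∈ L, psi b = b := fun b hb =>
      hfix _ ((hL b).1 hb).2 b (mem_insert_of_mem (mem_singleton_self b))
    have hheavy : ∀ b ∈ L, (1 / 2 - d) * n ≤ w {a, b} := by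
      intro b hb
      obtain ⟨h1, h2⟩ := (hL b).1 hb
      rw [pair_comm] at h2
      refine h.heavy h1 h2 ?_
      intro T' hT' hb'
      rw [hpb b hb] at hb'
      obtain ⟨z, rfl⟩ := h.mem hT' (ha T' hT')
      rcases mem_insert.1 hb' with h3 | h3
      · exact absurd h3 h1
      · rw [mem_singleton] at h3
        rw [h3]
    have hinj : Set.InjOn (fun b => ({a, b} : Finset (Fin r))) (L : Set (Fin r)) := by
      intro b hb c hc hbc
      have h1 : b ∈ ({a, c} : Finset (Fin r)) := by
        have : ({a, b} : Finset (Fin r)) = {a, c} := hbc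
        rw [← this]
        exact mem_insert_of_mem (mem_singleton_self b)
      rcases mem_insert.1 h1 with h2 | h2
      · exact absurd h2 ((hL b).1 (mem_coe.1 hb)).1
      · exact mem_singleton.1 h2
    have hsum : ∑ b ∈ L, w {a, b} ≤ n := by
      rw [← sum_image (f := w) hinj]
      refine (sum_le_sum_of_subset_of_nonneg ?_ (fun T _ _ => h.w0 T)).trans h.tot
      intro T hT
      obtain ⟨b, hb, rfl⟩ := mem_image.1 hT
      exact ((hL b).1 hb).2
    have hcard : L.card ≤ 2 := by
      by_contra hc
      push Not at hc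
      have h1 : (L.card : ℝ) * ((1 / 2 - d) * n) ≤ n := by
        refine le_trans ?_ hsum
        rw [← nsmul_eq_mul]
        exact card_nsmul_le_sum L _ _ hheavy
      have h2 : (3 : ℝ) ≤ L.card := by exact_mod_cast hc
      have h3 := h.half_pos
      have h4 : 3 * ((1 / 2 - d) * n) ≤ n := le_trans (mul_le_mul_of_nonneg_right h2 h3.le) h1
      have h5 := h.n0; have h6 := h.d1
      nlinarith
    have hform : ∀ T ∈ Pr, T = {a} ∨ ∃ b ∈ L, T = {a, b} := by
      intro T hT
      obtain ⟨z, hz⟩ := h.mem hT (ha T hT)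
      by_cases hza : z = a
      · left
        rw [hz, hza]
        exact pair_eq_singleton a
      · right
        exact ⟨z, (hL z).2 ⟨hza, hz ▸ hT⟩, hz⟩
    rcases Nat.lt_or_ge L.card 1 with h0 | h1
    · have hL0 : L = ∅ := card_eq_zero.1 (by omega)
      refine ⟨{a}, by simp, ?_, ?_, Or.inl ⟨a, rfl⟩⟩
      · intro A hA
        rw [mem_singleton.1 hA, hpa]
      · intro T hT
        rcases hform T hT with h2 | ⟨b, hb, -⟩
        · rw [h2]
        · rw [hL0] at hb
          exact absurd hb (notMem_empty b)
    · rcases Nat.lt_or_ge L.card 2 with h2 | h2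
      · obtain ⟨b, hb⟩ := card_eq_one.1 (show L.card = 1 by omega)
        have hbL : b ∈ L := by rw [hb]; exact mem_singleton_self b
        have hba : a ≠ b := fun h3 => ((hL b).1 hbL).1 h3.symm
        refine ⟨{a, b}, ?_, ?_, ?_, Or.inr (Or.inl ⟨a, b, hba, rfl, ((hL b).1 hbL).2⟩)⟩
        · exact (card_le_two).trans (by norm_num)
        · intro A hA
          rcases mem_insert.1 hA with rfl | hA
          · exact hpa
          · rw [mem_singleton.1 hA, hpb b hbL]
        · intro T hT
          rcases hform T hT with h3 | ⟨c, hc, h3⟩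
          · rw [h3]
            exact singleton_subset_iff.2 (mem_insert_self a _)
          · rw [hb, mem_singleton] at hc
            rw [h3, hc]
      · obtain ⟨b, c, hbc, hbL⟩ := card_eq_two.1 (show L.card = 2 by omega)
        have hb : b ∈ L := by rw [hbL]; exact mem_insert_self b _
        have hc : c ∈ L := by rw [hbL]; exact mem_insert_of_mem (mem_singleton_self c)
        have hba : a ≠ b := fun h3 => ((hL b).1 hb).1 h3.symm
        have hca : a ≠ c := fun h3 => ((hL c).1 hc).1 h3.symm
        refine ⟨{a, b, c}, card_le_three, ?_, ?_,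
          Or.inr (Or.inr ⟨a, b, c, hba, hca, hbc, rfl, ((hL b).1 hb).2, ((hL c).1 hc).2, ?_⟩)⟩
        · intro A hA
          rcases mem_insert.1 hA with rfl | hA
          · exact hpa
          · rcases mem_insert.1 hA with rfl | hA
            · exact hpb _ hb
            · rw [mem_singleton.1 hA, hpb c hc]
        · intro T hT
          rcases hform T hT with h3 | ⟨e, he, h3⟩
          · rw [h3]
            exact singleton_subset_iff.2 (mem_insert_self a _)
          · rw [hbL] at he
            rw [h3]
            intro x hx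
            rcases mem_insert.1 hx with rfl | hx
            · exact mem_insert_self _ _
            · rw [mem_singleton.1 hx]
              exact mem_insert_of_mem he
        · have h3 := hheavy b hb
          have h4 := hheavy c hc
          have h5 : 0 ≤ (if ({b, c} : Finset (Fin r)) ∈ Pr then w {b, c} else 0) := by
            split_ifs
            · exact h.w0 _
            · exact le_rfl
          have h6 : (1 - 2 * d) * n = (1 / 2 - d) * n + (1 / 2 - d) * n := by ring
          rw [h6]
          linarith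
  · -- no common element: a triangle
    push Not at hstar
    obtain ⟨a, b, hab⟩ := h.two T0 hT0
    have haT0 : a ∈ T0 := by rw [hab]; exact mem_insert_self a _
    have hbT0 : b ∈ T0 := by rw [hab]; exact mem_insert_of_mem (mem_singleton_self b)
    obtain ⟨T1, hT1, ha1⟩ := hstar a
    obtain ⟨T2, hT2, hb2⟩ := hstar b
    have hb1 : b ∈ T1 := by
      obtain ⟨x, hx, hx1⟩ := hint T0 hT0 T1 hT1
      rw [hab] at hx
      rcases mem_insert.1 hx with rfl | hx
      · exact absurd hx1 ha1
      · rw [mem_singleton.1 hx] at hx1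
        exact hx1
    have ha2 : a ∈ T2 := by
      obtain ⟨x, hx, hx1⟩ := hint T0 hT0 T2 hT2
      rw [hab] at hx
      rcases mem_insert.1 hx with rfl | hx
      · exact hx1
      · rw [mem_singleton.1 hx] at hx1
        exact absurd hx1 hb2
    obtain ⟨c, hc1⟩ := h.mem hT1 hb1
    obtain ⟨c', hc2⟩ := h.mem hT2 ha2
    have hcc : c' = c := by
      obtain ⟨x, hx, hx1⟩ := hint T1 hT1 T2 hT2
      have hx' := hx
      have hx1' := hx1
      rw [hc1] at hx
      rw [hc2] at hx1
      rcases mem_insert.1 hx with h3 | h3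
      · rw [h3] at hx1'
        exact absurd hx1' hb2
      · rcases mem_insert.1 hx1 with h4 | h4
        · rw [h4] at hx'
          exact absurd hx' ha1
        · rw [← mem_singleton.1 h4, ← mem_singleton.1 h3]
    subst hcc
    have hne_ab : a ≠ b := by
      rintro rfl
      exact ha1 hb1
    have hne_ac : a ≠ c' := by
      rintro rfl
      exact ha1 (by rw [hc1]; exact mem_insert_of_mem (mem_singleton_self _))
    have hne_bc : b ≠ c' := by
      rintro rfl
      exact hb2 (by rw [hc2]; exact mem_insert_of_mem (mem_singleton_self _))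
    have hPr : ∀ T ∈ Pr, T = T0 ∨ T = T1 ∨ T = T2 := by
      intro T hT
      by_cases haT : a ∈ T
      · obtain ⟨z, hz⟩ := h.mem hT haT
        -- T meets T1 = {b, c}
        obtain ⟨x, hx, hx1⟩ := hint T hT T1 hT1
        rw [hc1] at hx1
        rw [hz] at hx
        rcases mem_insert.1 hx with h3 | h3
        · rcases mem_insert.1 hx1 with h4 | h4
          · exact absurd (h3.symm.trans h4) hne_ab
          · exact absurd (h3.symm.trans (mem_singleton.1 h4)) hne_ac
        · have h3' := mem_singleton.1 h3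
          rcases mem_insert.1 hx1 with h4 | h4
          · left
            rw [hz, hab, ← h3', h4]
          · right; right
            rw [hz, hc2, ← h3', mem_singleton.1 h4]
      · -- a ∉ T: T contains b and c
        have hbT : b ∈ T := by
          obtain ⟨x, hx, hx1⟩ := hint T hT T0 hT0
          rw [hab] at hx1
          rcases mem_insert.1 hx1 with h4 | h4
          · rw [h4] at hx
            exact absurd hx haT
          · rw [mem_singleton.1 h4] at hx
            exact hx
        obtain ⟨z, hz⟩ := h.mem hT hbT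
        obtain ⟨x, hx, hx1⟩ := hint T hT T2 hT2
        have hx' := hx
        rw [hc2] at hx1
        rw [hz] at hx
        rcases mem_insert.1 hx1 with h4 | h4
        · rw [h4] at hx'
          exact absurd hx' haT
        · have h4' := mem_singleton.1 h4
          rcases mem_insert.1 hx with h3 | h3
          · exact absurd (h3.symm.trans h4') hne_bc
          · right; left
            rw [hz, hc1, ← mem_singleton.1 h3, h4']
    refine ⟨{a, b, c'}, card_le_three, ?_, ?_,
      Or.inr (Or.inr ⟨a, b, c', hne_ab, hne_ac, hne_bc, rfl, hab ▸ hT0, hc2 ▸ hT2, ?_⟩)⟩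
    · intro A hA
      rcases mem_insert.1 hA with rfl | hA
      · exact hfix T0 hT0 _ haT0
      · rcases mem_insert.1 hA with rfl | hA
        · exact hfix T0 hT0 _ hbT0
        · rw [mem_singleton.1 hA]
          exact hfix T1 hT1 _ (by rw [hc1]; exact mem_insert_of_mem (mem_singleton_self _))
    · intro T hT
      rcases hPr T hT with h3 | h3 | h3
      · rw [h3, hab]
        intro x hx
        rcases mem_insert.1 hx with rfl | hx
        · exact mem_insert_self _ _
        · rw [mem_singleton.1 hx]
          exact mem_insert_of_mem (mem_insert_self _ _)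
      · rw [h3, hc1]
        exact subset_insert _ _
      · rw [h3, hc2]
        intro x hx
        rcases mem_insert.1 hx with rfl | hx
        · exact mem_insert_self _ _
        · rw [mem_singleton.1 hx]
          exact mem_insert_of_mem (mem_insert_of_mem (mem_singleton_self _))
    · have h1P : ({b, c'} : Finset (Fin r)) ∈ Pr := hc1 ▸ hT1
      rw [if_pos h1P]
      have hsub : Pr ⊆ {({a, b} : Finset (Fin r)), {a, c'}, {b, c'}} := by
        intro T hT
        rcases hPr T hT with h3 | h3 | h3
        · rw [h3, hab]; exact mem_insert_self _ _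
        · rw [h3, hc1]; exact mem_insert_of_mem (mem_insert_of_mem (mem_singleton_self _))
        · rw [h3, hc2]; exact mem_insert_of_mem (mem_insert_self _ _)
      have h5 : ∑ T ∈ Pr, w T ≤ w {a, b} + w {a, c'} + w {b, c'} := by
        refine (sum_le_sum_of_subset_of_nonneg hsub (fun T _ _ => h.w0 T)).trans ?_
        have hn1 : ({a, b} : Finset (Fin r)) ∉ ({({a, c'} : Finset (Fin r)), {b, c'}} :
            Finset (Finset (Fin r))) := by
          intro hmem
          rcases mem_insert.1 hmem with h6 | h6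
          · exact hb2 (by rw [hc2, ← h6]; exact mem_insert_of_mem (mem_singleton_self _))
          · exact ha1 (by rw [hc1, ← mem_singleton.1 h6]; exact mem_insert_self _ _)
        have hn2 : ({a, c'} : Finset (Fin r)) ∉ ({({b, c'} : Finset (Fin r))} :
            Finset (Finset (Fin r))) := by
          intro hmem
          exact ha1 (by rw [hc1, ← mem_singleton.1 hmem]; exact mem_insert_self _ _)
        rw [sum_insert hn1, sum_insert hn2, sum_singleton, add_assoc]
      have h6 := h.big
      have h7 := h.d0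
      have h8 := h.n0
      have h9 : 0 ≤ d * n := mul_nonneg h7 h8.le
      have h10 : (1 - 2 * d) * n = (1 - d) * n - d * n := by ring
      rw [h10]
      linarith

/-- a present type with a class h that is not self-dual -/
theorem Ab.single (H : Ab psi Pr w n d) {h x : Fin r} (hh : psi h ≠ h)
    (hT : ({h, x} : Finset (Fin r)) ∈ Pr) : x = psi h ∨ (psi x = x ∧ x ≠ h) := by
  obtain ⟨a, ha, hb⟩ := H.compat _ hT _ hT
  rcases mem_insert.1 ha with rfl | ha
  · rcases mem_insert.1 hb with h1 | h1
    · exact absurd h1 hh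
    · exact Or.inl (mem_singleton.1 h1).symm
  · rw [mem_singleton.1 ha] at hb
    rcases mem_insert.1 hb with h1 | h1
    · left
      rw [← h1, H.inv]
    · right
      refine ⟨mem_singleton.1 h1, ?_⟩
      rintro rfl
      exact hh (mem_singleton.1 h1)

theorem Ab.uniq (H : Ab psi Pr w n d) {h x y : Fin r} (hh : psi h ≠ h)
    (hx : psi x = x) (hy : psi y = y)
    (hT : ({h, x} : Finset (Fin r)) ∈ Pr) (hT' : ({h, y} : Finset (Fin r)) ∈ Pr) : x = y := by
  obtain ⟨a, ha, hb⟩ := H.compat _ hT _ hT'
  rcases mem_insert.1 ha with rfl | ha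
  · rcases mem_insert.1 hb with h1 | h1
    · exact absurd h1 hh
    · have h2 := mem_singleton.1 h1
      have h3 : psi y = a := by rw [← h2, H.inv]
      rw [hy] at h3
      rw [h3] at h2
      exact absurd h2 hh
  · rw [mem_singleton.1 ha, hx] at hb
    rcases mem_insert.1 hb with h1 | h1
    · rw [← h1] at hh
      exact absurd hx hh
    · exact mem_singleton.1 h1

/-- the conclusion of case F -/
def FF (psi : Fin r → Fin r) (w : Finset (Fin r) → ℝ) (n d : ℝ) (Mn : Finset (Finset (Fin r)))
    (h : Fin r) : Prop :=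
  (1 - 2 * d) * n ≤ ∑ T ∈ Mn, w T ∧
  2 / 5 * n ≤ ∑ T ∈ Mn.filter (fun T => psi h ∈ T), w T ∧
  2 / 5 * n ≤ ∑ T ∈ Mn.filter (fun T => h ∈ T), w T ∧
  ((∃ sa sb, sa ≠ sb ∧ psi sa = sa ∧ psi sb = sb ∧
    (∀ T ∈ Mn, T = {h, psi h} ∨ T = {sa, h} ∨ T = {sb, psi h}) ∧
    ({sa, h} : Finset (Fin r)) ∈ Mn ∧ ({sb, psi h} : Finset (Fin r)) ∈ Mn ∧
    2 / 5 * n ≤ w {sa, h} ∧ 2 / 5 * n ≤ w {sb, psi h}) ∨
  (∃ sa, (psi sa = sa ∨ sa = h) ∧
    ∀ T ∈ Mn, T = {h, psi h} ∨ (psi sa = sa ∧ (T = {sa, h} ∨ T = {sa, psi h}))))

/-- CASE F -/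
theorem Ab.caseF (H : Ab psi Pr w n d) (hnf : ∃ T ∈ Pr, ∃ a ∈ T, psi a ≠ a) :
    ∃ h, psi h ≠ h ∧ ∃ Mn, Mn ⊆ Pr ∧ FF psi w n d Mn h := by
  have hn := H.n0
  have hd1 := H.d1
  have hd0 := H.d0
  have h25 : 2 / 5 * n ≤ (1 / 2 - d) * n := mul_le_mul_of_nonneg_right (by linarith) hn.le
  by_cases hY : ∃ h, psi h ≠ h ∧ ({h, psi h} : Finset (Fin r)) ∈ Pr
  · obtain ⟨h, hh, hYP⟩ := hY
    have hh' : psi (psi h) ≠ psi h := by rw [H.inv]; exact hh.symm
    have hmeet : ∀ T ∈ Pr, T = {h, psi h} ∨ (∃ x, psi x = x ∧ T = {h, x}) ∨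
        (∃ x, psi x = x ∧ T = {psi h, x}) := by
      intro T hT
      obtain ⟨a, ha, hb⟩ := H.compat T hT _ hYP
      have key : a = psi h ∨ a = h := by
        rcases mem_insert.1 hb with h1 | h1
        · left; rw [← h1, H.inv]
        · right
          have := mem_singleton.1 h1
          rw [← H.inv a, this, H.inv]
      obtain ⟨z, hz⟩ := H.mem hT ha
      rcases key with rfl | rfl
      · rcases H.single hh' (hz ▸ hT) with h1 | h1
        · left
          rw [hz, h1, H.inv, pair_comm]
        · right; right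
          exact ⟨z, h1.1, hz⟩
      · rcases H.single hh (hz ▸ hT) with h1 | h1
        · left
          rw [hz, h1]
        · right; left
          exact ⟨z, h1.1, hz⟩
    refine ⟨h, hh, Pr, Subset.refl _, ?_, ?_, ?_, ?_⟩
    · have h1 := H.big
      have h2 : 0 ≤ d * n := mul_nonneg hd0 hn.le
      have h3 : (1 - 2 * d) * n = (1 - d) * n - d * n := by ring
      rw [h3]; linarith
    · exact h25.trans (H.half h (psi h) hh.symm hYP)
    · have h1 := H.half (psi h) h hh (by rw [pair_comm]; exact hYP)
      rw [H.inv] at h1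
      exact h25.trans h1
    · by_cases hZ : ∃ x, psi x = x ∧ ({h, x} : Finset (Fin r)) ∈ Pr
      · obtain ⟨x, hx, hxP⟩ := hZ
        by_cases hX : ∃ y, psi y = y ∧ ({psi h, y} : Finset (Fin r)) ∈ Pr
        · obtain ⟨y, hy, hyP⟩ := hX
          have hform : ∀ T ∈ Pr, T = {h, psi h} ∨ T = {x, h} ∨ T = {y, psi h} := by
            intro T hT
            rcases hmeet T hT with h1 | ⟨z, hz, h1⟩ | ⟨z, hz, h1⟩
            · exact Or.inl h1
            · right; left
              rw [h1, H.uniq hh hz hx (h1 ▸ hT) hxP, pair_comm]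
            · right; right
              rw [h1, H.uniq hh' hz hy (h1 ▸ hT) hyP, pair_comm]
          by_cases hxy : x = y
          · right
            refine ⟨x, Or.inl hx, ?_⟩
            intro T hT
            rcases hform T hT with h1 | h1 | h1
            · exact Or.inl h1
            · exact Or.inr ⟨hx, Or.inl h1⟩
            · exact Or.inr ⟨hx, Or.inr (by rw [h1, hxy])⟩
          · left
            have hxh : x ≠ h := by rintro rfl; exact hh hx
            have hxh' : x ≠ psi h := by rintro rfl; exact hh' hx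
            have hyh : y ≠ h := by rintro rfl; exact hh hy
            have hyh' : y ≠ psi h := by rintro rfl; exact hh' hy
            have hxP' : ({x, h} : Finset (Fin r)) ∈ Pr := by rw [pair_comm]; exact hxP
            have hyP' : ({y, psi h} : Finset (Fin r)) ∈ Pr := by rw [pair_comm]; exact hyP
            refine ⟨x, y, hxy, hx, hy, hform, hxP', hyP', ?_, ?_⟩
            · refine h25.trans (H.heavy hxh hxP' ?_)
              intro T' hT' hm
              rw [hx] at hm
              rcases hform T' hT' with h1 | h1 | h1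
              · rw [h1] at hm
                rcases mem_insert.1 hm with h2 | h2
                · exact absurd h2 hxh
                · exact absurd (mem_singleton.1 h2) hxh'
              · exact h1
              · rw [h1] at hm
                rcases mem_insert.1 hm with h2 | h2
                · exact absurd h2 hxy
                · exact absurd (mem_singleton.1 h2) hxh'
            · refine h25.trans (H.heavy hyh' hyP' ?_)
              intro T' hT' hm
              rw [hy] at hm
              rcases hform T' hT' with h1 | h1 | h1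
              · rw [h1] at hm
                rcases mem_insert.1 hm with h2 | h2
                · exact absurd h2 hyh
                · exact absurd (mem_singleton.1 h2) hyh'
              · rw [h1] at hm
                rcases mem_insert.1 hm with h2 | h2
                · exact absurd h2.symm hxy
                · exact absurd (mem_singleton.1 h2) hyh
              · exact h1
        · right
          refine ⟨x, Or.inl hx, ?_⟩
          intro T hT
          rcases hmeet T hT with h1 | ⟨z, hz, h1⟩ | ⟨z, hz, h1⟩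
          · exact Or.inl h1
          · refine Or.inr ⟨hx, Or.inl ?_⟩
            rw [h1, H.uniq hh hz hx (h1 ▸ hT) hxP, pair_comm]
          · exact absurd ⟨z, hz, h1 ▸ hT⟩ hX
      · by_cases hX : ∃ y, psi y = y ∧ ({psi h, y} : Finset (Fin r)) ∈ Pr
        · obtain ⟨y, hy, hyP⟩ := hX
          right
          refine ⟨y, Or.inl hy, ?_⟩
          intro T hT
          rcases hmeet T hT with h1 | ⟨z, hz, h1⟩ | ⟨z, hz, h1⟩
          · exact Or.inl h1
          · exact absurd ⟨z, hz, h1 ▸ hT⟩ hZ
          · refine Or.inr ⟨hy, Or.inr ?_⟩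
            rw [h1, H.uniq hh' hz hy (h1 ▸ hT) hyP, pair_comm]
        · right
          refine ⟨h, Or.inr rfl, ?_⟩
          intro T hT
          rcases hmeet T hT with h1 | ⟨z, hz, h1⟩ | ⟨z, hz, h1⟩
          · exact Or.inl h1
          · exact absurd ⟨z, hz, h1 ▸ hT⟩ hZ
          · exact absurd ⟨z, hz, h1 ▸ hT⟩ hX
  · push Not at hY
    obtain ⟨T0, hT0, h, hhT, hh⟩ := hnf
    have hh' : psi (psi h) ≠ psi h := by rw [H.inv]; exact hh.symm
    obtain ⟨x, hx0⟩ := H.mem hT0 hhT
    have hxP : ({h, x} : Finset (Fin r)) ∈ Pr := hx0 ▸ hT0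
    have hx : psi x = x ∧ x ≠ h := by
      rcases H.single hh hxP with h1 | h1
      · rw [h1] at hxP
        exact absurd hxP (hY h hh)
      · exact h1
    -- a present type with psi h
    obtain ⟨T1, hT1, hm1⟩ := H.exists_of_half hx.2.symm hxP
    obtain ⟨y, hy0⟩ := H.mem hT1 hm1
    have hyP : ({psi h, y} : Finset (Fin r)) ∈ Pr := hy0 ▸ hT1
    have hnoY' : ∀ z, ({psi h, z} : Finset (Fin r)) ∈ Pr → psi z = z ∧ z ≠ psi h := by
      intro z hz
      rcases H.single hh' hz with h1 | h1
      · rw [h1, H.inv, pair_comm] at hz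
        exact absurd hz (hY h hh)
      · exact h1
    have hnoY : ∀ z, ({h, z} : Finset (Fin r)) ∈ Pr → psi z = z ∧ z ≠ h := by
      intro z hz
      rcases H.single hh hz with h1 | h1
      · rw [h1] at hz
        exact absurd hz (hY h hh)
      · exact h1
    have hy := hnoY' y hyP
    have hwX : (1 / 2 - d) * n ≤ w {psi h, y} := by
      refine H.heavy hx.2.symm hxP ?_
      intro T' hT' hm
      obtain ⟨z, hz⟩ := H.mem hT' hm
      have hzP : ({psi h, z} : Finset (Fin r)) ∈ Pr := hz ▸ hT'
      rw [hz, H.uniq hh' (hnoY' z hzP).1 hy.1 hzP hyP]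
    have hwZ : (1 / 2 - d) * n ≤ w {h, x} := by
      refine H.heavy hy.2.symm hyP ?_
      intro T' hT' hm
      rw [H.inv] at hm
      obtain ⟨z, hz⟩ := H.mem hT' hm
      have hzP : ({h, z} : Finset (Fin r)) ∈ Pr := hz ▸ hT'
      rw [hz, H.uniq hh (hnoY z hzP).1 hx.1 hzP hxP]
    have hyh : y ≠ h := by
      intro h1
      rw [h1] at hy
      exact hh hy.1
    have hxh' : x ≠ psi h := by
      intro h1
      rw [h1] at hx
      exact hh' hx.1
    have hne : ({psi h, y} : Finset (Fin r)) ≠ {h, x} := by
      intro h1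
      have h2 : h ∈ ({psi h, y} : Finset (Fin r)) := by rw [h1]; exact mem_insert_self _ _
      rcases mem_insert.1 h2 with h3 | h3
      · exact hh h3.symm
      · exact hyh (mem_singleton.1 h3).symm
    refine ⟨h, hh, {({psi h, y} : Finset (Fin r)), {h, x}}, ?_, ?_, ?_, ?_, ?_⟩
    · intro T hT
      rcases mem_insert.1 hT with rfl | hT
      · exact hyP
      · rw [mem_singleton.1 hT]
        exact hxP
    · rw [sum_pair hne]
      have h3 : (1 - 2 * d) * n = (1 / 2 - d) * n + (1 / 2 - d) * n := by ring
      rw [h3]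
      linarith
    · refine (h25.trans hwX).trans ?_
      refine single_le_sum (f := w) (fun T _ => H.w0 T) ?_
      rw [mem_filter]
      exact ⟨mem_insert_self _ _, mem_insert_self _ _⟩
    · refine (h25.trans hwZ).trans ?_
      refine single_le_sum (f := w) (fun T _ => H.w0 T) ?_
      rw [mem_filter]
      exact ⟨mem_insert_of_mem (mem_singleton_self _), mem_insert_self _ _⟩
    · by_cases hxy : x = y
      · right
        refine ⟨x, Or.inl hx.1, ?_⟩
        intro T hT
        rcases mem_insert.1 hT with h1 | h1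
        · exact Or.inr ⟨hx.1, Or.inr (by rw [h1, hxy, pair_comm])⟩
        · exact Or.inr ⟨hx.1, Or.inl (by rw [mem_singleton.1 h1, pair_comm])⟩
      · left
        refine ⟨x, y, hxy, hx.1, hy.1, ?_, ?_, ?_, ?_, ?_⟩
        · intro T hT
          rcases mem_insert.1 hT with h1 | h1
          · right; right
            rw [h1, pair_comm]
          · right; left
            rw [mem_singleton.1 h1, pair_comm]
        · rw [pair_comm x h]
          exact mem_insert_of_mem (mem_singleton_self _)
        · rw [pair_comm y (psi h)]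
          exact mem_insert_self _ _
        · rw [pair_comm x h]
          exact h25.trans hwZ
        · rw [pair_comm y (psi h)]
          exact h25.trans hwX

end Pool.H90BX.H74
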