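import Pool.Agent.H74.BX.Cnt

set_option autoImplicit false

/-! The classification (paper h90_be_paper.md, H5): assembly. -/

namespace Pool.H90BX.H74

open Finset
open scoped Classical

/-! values -/

section val
variable {r : ℕ} {psi : Fin r → Fin r} {h : Fin r}

theorem valF_h : valF psi h h = 1 := by simp [valF]

theorem valF_psi (hh : psi h ≠ h) : valF psi h (psi h) = -1 := by simp [valF, hh]

theorem valF_ne {A : Fin r} (h1 : A ≠ h) (h2 : A ≠ psi h) : valF psi h A = 0 := by
  simp [valF, h1, h2]

theorem valF_fix (hh : psi h ≠ h) (hinv : ∀ A, psi (psi A) = A) {A : Fin r} (hA : psi A = A) :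
    valF psi h A = 0 := by
  refine valF_ne ?_ ?_
  · rintro rfl; exact hh hA
  · rintro rfl; rw [hinv] at hA; exact hh hA.symm

theorem valF_vl (hh : psi h ≠ h) (hinv : ∀ A, psi (psi A) = A) : Vl psi (valF psi h) := by
  refine ⟨hinv, ?_, ?_, ?_, ?_⟩
  · intro A
    by_cases h1 : A = h
    · rw [h1, valF_h, valF_psi hh]
    · by_cases h2 : A = psi h
      · rw [h2, hinv, valF_h, valF_psi hh]; norm_num
      · rw [valF_ne h1 h2, valF_ne, neg_zero]
        · intro h3; exact h2 (by rw [← h3, hinv])
        · intro h3; exact h1 (by rw [← hinv A, h3, hinv])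
  · intro A; unfold valF; split_ifs <;> norm_num
  · intro A; unfold valF; split_ifs <;> norm_num
  · intro A B hA hB
    have key : ∀ C, valF psi h C = 1 → C = h := by
      intro C hC
      by_contra hne
      unfold valF at hC
      rw [if_neg hne] at hC
      split_ifs at hC <;> omega
    rw [key A hA, key B hB]

theorem pair_val {val : Fin r → ℤ} {p q x y : Fin r} (he : ({p, q} : Finset (Fin r)) = {x, y})
    (hv : val x ≠ val y) : val p ≠ val q := by
  intro hpq
  have h1 : ∀ z ∈ ({p, q} : Finset (Fin r)), val z = val p := by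
    intro z hz
    rcases mem_insert.1 hz with rfl | hz
    · rfl
    · rw [mem_singleton.1 hz, hpq]
  apply hv
  rw [h1 x (by rw [he]; exact mem_insert_self _ _),
    h1 y (by rw [he]; exact mem_insert_of_mem (mem_singleton_self _))]

end val

variable {V : Type} [Fintype V] [DecidableEq V] {r : ℕ} {l : LS V} {psi : Fin r → Fin r}
  {part : V → Lb → Fin r} {s : ℝ}

theorem exists_of_Pr (hs : 0 < s) (hn : 0 < nn V) {T : Finset (Fin r)}
    (hT : T ∈ Pr l psi part s) : ∃ v ∈ V1 l psi part s, tp l part v = T := by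
  have h1 := (mem_filter.1 hT).2
  unfold nT at h1
  have h3 : ((V1 l psi part s).filter (fun v => tp l part v = T)).Nonempty := by
    rw [← card_pos]
    have h4 : 0 < 10 * s * nn V := by positivity
    have : (0 : ℝ) < (((V1 l psi part s).filter (fun v => tp l part v = T)).card : ℝ) := by
      linarith
    exact_mod_cast this
  obtain ⟨v, hv⟩ := h3
  exact ⟨v, (mem_filter.1 hv).1, (mem_filter.1 hv).2⟩

/-- the abstract structure holds -/
theorem ab_of (hl : Bdd l) (hs : 0 < s) (hs1 : s ≤ 1) (hsn : 1 ≤ s * nn V)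
    (hpsi : ∀ a, psi (psi a) = a) (hirr : irr l psi part ≤ s ^ 2 * nn V ^ 2)
    (htrn : trn l part ≤ s ^ 2 * nn V ^ 2) (hn : 0 < nn V)
    (hd1 : 10 * ((r : ℝ) + 1) ^ 2 * s ≤ 1 / 100) :
    Ab psi (Pr l psi part s) (nT l psi part s) (nn V) (10 * ((r : ℝ) + 1) ^ 2 * s) := by
  have hr : (0 : ℝ) ≤ r := Nat.cast_nonneg r
  have hdr : 5 * s + 10 * (r : ℝ) ^ 2 * s ≤ 10 * ((r : ℝ) + 1) ^ 2 * s := by
    have : 0 ≤ (r : ℝ) * s := mul_nonneg hr hs.le
    nlinarith
  have habs := absent (l := l) (psi := psi) (part := part) hs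
  refine ⟨hpsi, ?_, ?_, ?_, ?_, ?_, ?_, hn, by positivity, hd1⟩
  · intro T hT
    obtain ⟨v, -, hv⟩ := exists_of_Pr hs hn hT
    exact ⟨_, _, hv.symm⟩
  · intro T
    exact Nat.cast_nonneg _
  · intro T hT T' hT'
    exact compat hs hsn hT hT'
  · intro x y hxy hP
    obtain ⟨v, hv, hvT⟩ := exists_of_Pr hs hn hP
    have hne : part v (mx l v) ≠ part v (md l v) := by
      intro h1
      have h2 : tp l part v = {part v (mx l v)} := by
        unfold tp
        rw [lam_mx, lam_md, h1, pair_eq_singleton]
      rw [hvT] at h2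
      have h3 : x ∈ ({part v (mx l v)} : Finset (Fin r)) := by
        rw [← h2]; exact mem_insert_self _ _
      have h4 : y ∈ ({part v (mx l v)} : Finset (Fin r)) := by
        rw [← h2]; exact mem_insert_of_mem (mem_singleton_self _)
      exact hxy ((mem_singleton.1 h3).trans (mem_singleton.1 h4).symm)
    have h1 := half_at hl hs hs1 hsn hirr htrn hv hne (a := x)
      (by rw [hvT]; exact mem_insert_self _ _)
    have h2 := card_types (l := l) (psi := psi) (part := part) (s := s)
      ((Pr l psi part s).filter (fun T => psi x ∈ T))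
    rw [← h2]
    have h3 : (V1 l psi part s).filter (fun w => psi x ∈ tp l part w) ⊆
        (V1 l psi part s).filter (fun v => tp l part v ∈
          (Pr l psi part s).filter (fun T => psi x ∈ T)) ∪
        (V1 l psi part s).filter (fun v => tp l part v ∉ Pr l psi part s) := by
      intro w hw
      obtain ⟨h4, h5⟩ := mem_filter.1 hw
      by_cases h6 : tp l part w ∈ Pr l psi part s
      · exact mem_union_left _ (mem_filter.2 ⟨h4, mem_filter.2 ⟨h6, h5⟩⟩)
      · exact mem_union_right _ (mem_filter.2 ⟨h4, h6⟩)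
    have h4 : (((V1 l psi part s).filter (fun w => psi x ∈ tp l part w)).card : ℝ) ≤
        (((V1 l psi part s).filter (fun v => tp l part v ∈
          (Pr l psi part s).filter (fun T => psi x ∈ T))).card : ℝ) +
        (((V1 l psi part s).filter (fun v => tp l part v ∉ Pr l psi part s)).card : ℝ) := by
      exact_mod_cast (card_le_card h3).trans (card_union_le _ _)
    have h5 : (5 * s + 10 * (r : ℝ) ^ 2 * s) * nn V ≤ 10 * ((r : ℝ) + 1) ^ 2 * s * nn V :=
      mul_le_mul_of_nonneg_right hdr hn.le
    nlinarith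
  · rw [← card_types]
    unfold nn
    exact_mod_cast card_le_univ _
  · rw [← card_types]
    have h3 : (univ : Finset V) ⊆
        (V1 l psi part s).filter (fun v => tp l part v ∈ Pr l psi part s) ∪
        ((V1 l psi part s).filter (fun v => tp l part v ∉ Pr l psi part s) ∪
          (V1 l psi part s)ᶜ) := by
      intro w _
      by_cases h4 : w ∈ V1 l psi part s
      · by_cases h6 : tp l part w ∈ Pr l psi part s
        · exact mem_union_left _ (mem_filter.2 ⟨h4, h6⟩)
        · exact mem_union_right _ (mem_union_left _ (mem_filter.2 ⟨h4, h6⟩))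
      · exact mem_union_right _ (mem_union_right _ (mem_compl.2 h4))
    have h4 : nn V ≤
        (((V1 l psi part s).filter (fun v => tp l part v ∈ Pr l psi part s)).card : ℝ) +
        ((((V1 l psi part s).filter (fun v => tp l part v ∉ Pr l psi part s)).card : ℝ) +
        ((V1 l psi part s)ᶜ).card) := by
      have h5 := ((card_le_card h3).trans (card_union_le _ _)).trans
        (Nat.add_le_add_left (card_union_le _ _) _)
      rw [card_univ] at h5
      unfold nn
      exact_mod_cast h5
    have h5 := V1_big hl hs hirr htrn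
    have h6 : (5 * s + 10 * (r : ℝ) ^ 2 * s) * nn V ≤ 10 * ((r : ℝ) + 1) ^ 2 * s * nn V :=
      mul_le_mul_of_nonneg_right hdr hn.le
    have h7 : 0 < s * nn V := mul_pos hs hn
    nlinarith

/-- the vertices of the main types -/
noncomputable def UU (l : LS V) (psi : Fin r → Fin r) (part : V → Lb → Fin r) (s : ℝ)
    (Mn : Finset (Finset (Fin r))) : Finset V :=
  (V1 l psi part s).filter (fun v => tp l part v ∈ Mn)

theorem card_ofT {Mn : Finset (Finset (Fin r))} {T : Finset (Fin r)} (hT : T ∈ Mn) :
    ((ofT l part (UU l psi part s Mn) T).card : ℝ) = nT l psi part s T := by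
  unfold ofT UU nT
  congr 2
  ext v
  simp only [mem_filter]
  constructor
  · rintro ⟨⟨h1, _⟩, h2⟩
    exact ⟨h1, h2⟩
  · rintro ⟨h1, h2⟩
    exact ⟨⟨h1, h2 ▸ hT⟩, h2⟩

theorem ofT_empty {Mn : Finset (Finset (Fin r))} {T : Finset (Fin r)} (hT : T ∉ Mn) :
    ofT l part (UU l psi part s Mn) T = ∅ := by
  unfold ofT UU
  rw [filter_eq_empty_iff]
  intro v hv h
  exact hT (h ▸ (mem_filter.1 hv).2)

theorem UU_big {Mn : Finset (Finset (Fin r))} {d : ℝ}
    (h : (1 - 2 * d) * nn V ≤ ∑ T ∈ Mn, nT l psi part s T) :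
    (((UU l psi part s Mn)ᶜ).card : ℝ) ≤ 2 * d * nn V := by
  rw [← card_types] at h
  have h1 : ((UU l psi part s Mn)ᶜ).card + (UU l psi part s Mn).card = Fintype.card V := by
    rw [add_comm, card_add_card_compl]
  have h2 : (((UU l psi part s Mn)ᶜ).card : ℝ) + (UU l psi part s Mn).card = nn V := by
    unfold nn
    exact_mod_cast h1
  have h3 : ((UU l psi part s Mn).card : ℝ) =
    (((V1 l psi part s).filter (fun v => tp l part v ∈ Mn)).card : ℝ) := rfl
  rw [← h3] at h
  linarith

theorem few_mono {s1 : ℝ} (hs : s ≤ s1) (hn : 0 ≤ nn V) {v : V} (h : v ∈ V1 l psi part s) :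
    Few l psi part s1 v := by
  have h1 := (mem_filter.1 h).2.1
  unfold Few at *
  exact h1.trans (mul_le_mul_of_nonneg_right hs hn)

theorem half_mono {s1 : ℝ} (hs : s ≤ s1) (hN : 0 ≤ NN V) {v : V} (h : v ∈ V1 l psi part s)
    (hne : part v (mx l v) ≠ part v (md l v)) : NN V - 2 * cnt l v (mx l v) ≤ s1 * NN V :=
  ((mem_filter.1 h).2.2 hne).trans (mul_le_mul_of_nonneg_right hs hN)

/-- everything in one place, for given V -/
theorem classify_at {s1 : ℝ} (hs1 : s1 ≤ 1 / 10 ^ 9) (hl : Bdd l) (hs : 0 < s)
    (hsn : 1000 ≤ s * nn V) (hs2 : 1000 * ((r : ℝ) + 1) ^ 2 * s ≤ s1)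
    (hpsi : ∀ a, psi (psi a) = a) (hirr : irr l psi part ≤ s ^ 2 * nn V ^ 2)
    (htrn : trn l part ≤ s ^ 2 * nn V ^ 2) :
    (∃ (U : Finset V) (K : Finset (Fin r)), PC l psi part s1 U K ∧ PCase l part U K) ∨
      (∃ (U : Finset V) (K : Finset (Fin r)) (val : Fin r → ℤ), FC l psi part val s1 U K ∧
        FCase l psi part val U K) := by
  have hr : (0 : ℝ) ≤ r := Nat.cast_nonneg r
  have hn : 0 < nn V := by
    by_contra h
    push Not at h
    have : s * nn V ≤ 0 := mul_nonpos_of_nonneg_of_nonpos hs.le h
    linarith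
  have hss1 : s ≤ s1 := by
    refine le_trans ?_ hs2
    have h1 : (1 : ℝ) ≤ 1000 * ((r : ℝ) + 1) ^ 2 := by nlinarith
    calc s = 1 * s := (one_mul s).symm
      _ ≤ _ := mul_le_mul_of_nonneg_right h1 hs.le
  have hs10 : 0 < s1 := lt_of_lt_of_le hs hss1
  have hN : 0 ≤ NN V := by
    have h1 : 3 ≤ Fintype.card V := hl.1
    have h2 : (3 : ℝ) ≤ Fintype.card V := by exact_mod_cast h1
    unfold NN; linarith
  have hlarge : 1000 ≤ s1 * nn V := hsn.trans (mul_le_mul_of_nonneg_right hss1 hn.le)
  have hd : 10 * ((r : ℝ) + 1) ^ 2 * s ≤ s1 / 100 := by linarith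
  have hd1 : 10 * ((r : ℝ) + 1) ^ 2 * s ≤ 1 / 100 := by
    have : (1 : ℝ) / 10 ^ 9 ≤ 1 := by norm_num
    linarith
  have hA := ab_of hl hs (by linarith [show (1 : ℝ) / 10 ^ 9 ≤ 1 by norm_num]) (by linarith) hpsi
    hirr htrn hn hd1
  have hnTbig : ∀ T ∈ Pr l psi part s, (10 : ℝ) ≤ nT l psi part s T := by
    intro T hT
    have := (mem_filter.1 hT).2
    linarith
  have h2d : 2 * (10 * ((r : ℝ) + 1) ^ 2 * s) * nn V ≤ s1 * nn V :=
    mul_le_mul_of_nonneg_right (by linarith) hn.le
  have htpm : ∀ v, lam l part v (mx l v) ∈ tp l part v := fun v => mem_insert_self _ _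
  have htpd : ∀ v, lam l part v (md l v) ∈ tp l part v :=
    fun v => mem_insert_of_mem (mem_singleton_self _)
  by_cases hfix : ∀ T ∈ Pr l psi part s, ∀ a ∈ T, psi a = a
  · left
    obtain ⟨K, hK1, hK2, hK3, hK4⟩ := hA.caseP hfix
    refine ⟨UU l psi part s (Pr l psi part s), K, ?_, ?_⟩
    · refine ⟨hpsi, hl, hs10, hs1, hlarge, ?_, ?_, ?_, hK1, hK2, ?_⟩
      · intro v hv
        exact few_mono hss1 hn.le (mem_filter.1 hv).1
      · intro v hv hne
        exact half_mono hss1 hN (mem_filter.1 hv).1 hne
      · refine (UU_big (d := 10 * ((r : ℝ) + 1) ^ 2 * s) ?_).trans h2d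
        refine le_trans ?_ hA.big
        have h1 := hA.d0
        exact mul_le_mul_of_nonneg_right (by linarith) hn.le
      · intro v hv
        have h1 := hK3 _ (mem_filter.1 hv).2
        exact ⟨h1 (htpm v), h1 (htpd v)⟩
    · rcases hK4 with h1 | ⟨a, b, hab, hK, hP⟩ | ⟨a, b, c, hab, hac, hbc, hK, hP1, hP2, hsum⟩
      · exact Or.inl h1
      · refine Or.inr (Or.inl ⟨a, b, hab, hK, ?_⟩)
        rw [← card_pos]
        have h2 := hnTbig _ hP
        rw [← card_ofT (l := l) (psi := psi) (part := part) (s := s) hP] at h2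
        have h3 : (0 : ℝ) < ((ofT l part (UU l psi part s (Pr l psi part s)) {a, b}).card : ℝ) := by
          linarith
        exact_mod_cast h3
      · refine Or.inr (Or.inr ⟨a, b, c, hab, hac, hbc, hK, ?_, ?_, ?_, ?_⟩)
        · have h2 := hnTbig _ hP1
          rw [← card_ofT (l := l) (psi := psi) (part := part) (s := s) hP1] at h2
          exact_mod_cast h2
        · have h2 := hnTbig _ hP2
          rw [← card_ofT (l := l) (psi := psi) (part := part) (s := s) hP2] at h2
          exact_mod_cast h2
        · by_cases hP3 : ({b, c} : Finset (Fin r)) ∈ Pr l psi part s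
          · right
            have h2 := hnTbig _ hP3
            rw [← card_ofT (l := l) (psi := psi) (part := part) (s := s) hP3] at h2
            exact_mod_cast h2
          · left
            exact ofT_empty hP3
        · have h3 : ((ofT l part (UU l psi part s (Pr l psi part s)) {b, c}).card : ℝ) =
              (if ({b, c} : Finset (Fin r)) ∈ Pr l psi part s then
                nT l psi part s {b, c} else 0) := by
            split_ifs with hP3
            · exact card_ofT hP3
            · rw [ofT_empty hP3, card_empty, Nat.cast_zero]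
          rw [card_ofT hP1, card_ofT hP2, h3]
          refine le_trans ?_ hsum
          refine mul_le_mul_of_nonneg_right ?_ hn.le
          linarith
  · right
    push Not at hfix
    obtain ⟨h, hh, Mn, hMn, hbig, hlo, hhi, halt⟩ := hA.caseF hfix
    have hh' : psi (psi h) ≠ psi h := by rw [hpsi]; exact hh.symm
    have hv1 := valF_h (psi := psi) (h := h)
    have hv2 := valF_psi (psi := psi) hh
    have hbigU : (((UU l psi part s Mn)ᶜ).card : ℝ) ≤ s1 * nn V := (UU_big hbig).trans h2d
    have hnlo : 2 / 5 * nn V ≤ ((((UU l psi part s Mn).filter (fun v =>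
        valF psi h (lam l part v (mx l v)) = -1 ∨
        valF psi h (lam l part v (md l v)) = -1)).card : ℕ) : ℝ) := by
      rw [← card_types] at hlo
      refine hlo.trans ?_
      have h3 : (V1 l psi part s).filter
          (fun v => tp l part v ∈ Mn.filter (fun T => psi h ∈ T)) ⊆
          (UU l psi part s Mn).filter (fun v =>
            valF psi h (lam l part v (mx l v)) = -1 ∨
            valF psi h (lam l part v (md l v)) = -1) := by
        intro v hv
        obtain ⟨h4, h5⟩ := mem_filter.1 hv
        obtain ⟨h6, h7⟩ := mem_filter.1 h5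
        refine mem_filter.2 ⟨mem_filter.2 ⟨h4, h6⟩, ?_⟩
        rcases mem_insert.1 h7 with h8 | h8
        · left; rw [← h8, hv2]
        · right; rw [← mem_singleton.1 h8, hv2]
      exact_mod_cast card_le_card h3
    have hnhi : 2 / 5 * nn V ≤ ((((UU l psi part s Mn).filter (fun v =>
        valF psi h (lam l part v (mx l v)) = 1 ∨
        valF psi h (lam l part v (md l v)) = 1)).card : ℕ) : ℝ) := by
      rw [← card_types] at hhi
      refine hhi.trans ?_
      have h3 : (V1 l psi part s).filter
          (fun v => tp l part v ∈ Mn.filter (fun T => h ∈ T)) ⊆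
          (UU l psi part s Mn).filter (fun v =>
            valF psi h (lam l part v (mx l v)) = 1 ∨
            valF psi h (lam l part v (md l v)) = 1) := by
        intro v hv
        obtain ⟨h4, h5⟩ := mem_filter.1 hv
        obtain ⟨h6, h7⟩ := mem_filter.1 h5
        refine mem_filter.2 ⟨mem_filter.2 ⟨h4, h6⟩, ?_⟩
        rcases mem_insert.1 h7 with h8 | h8
        · left; rw [← h8, hv1]
        · right; rw [← mem_singleton.1 h8, hv1]
      exact_mod_cast card_le_card h3
    -- general construction
    have build : ∀ K : Finset (Fin r), K.card ≤ 4 → (∀ A ∈ K, psi A ∈ K) →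
        (∀ A ∈ K, Cl psi (valF psi h) A) → (∀ T ∈ Mn, T ⊆ K) →
        (∀ T ∈ Mn, ∃ x y, T = {x, y} ∧ valF psi h x ≠ valF psi h y) →
        FC l psi part (valF psi h) s1 (UU l psi part s Mn) K := by
      intro K hK1 hK2 hK3 hK4 hK5
      have htwo : ∀ v ∈ UU l psi part s Mn,
          valF psi h (lam l part v (mx l v)) ≠ valF psi h (lam l part v (md l v)) := by
        intro v hv
        obtain ⟨x, y, hxy, hne⟩ := hK5 _ (mem_filter.1 hv).2
        exact pair_val hxy hne
      refine ⟨valF_vl hh hpsi, hl, hs10, hs1, hlarge, ?_, ?_, htwo, hbigU, hK1, hK2, hK3, ?_,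
        hnlo, hnhi⟩
      · intro v hv
        exact few_mono hss1 hn.le (mem_filter.1 hv).1
      · intro v hv
        refine half_mono hss1 hN (mem_filter.1 hv).1 ?_
        intro h1
        apply htwo v hv
        rw [lam_mx, lam_md, h1]
      · intro v hv
        have h1 := hK4 _ (mem_filter.1 hv).2
        exact ⟨h1 (htpm v), h1 (htpd v)⟩
    rcases halt with ⟨sa, sb, hab, hsa, hsb, hform, hPa, hPb, hwa, hwb⟩ | ⟨sa, hsa, hform⟩
    · have hsav := valF_fix (psi := psi) hh hpsi hsa
      have hsbv := valF_fix (psi := psi) hh hpsi hsb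
      refine ⟨UU l psi part s Mn, {h, psi h, sa, sb}, valF psi h, build _ card_le_four ?_ ?_ ?_ ?_,
        h, hh, rfl, Or.inl ⟨sa, sb, hab, hsa, hsb, rfl, ?_, ?_, ?_⟩⟩
      · intro A hA
        simp only [mem_insert, mem_singleton] at hA ⊢
        rcases hA with rfl | rfl | rfl | rfl
        · exact Or.inr (Or.inl rfl)
        · left; exact hpsi h
        · exact Or.inr (Or.inr (Or.inl hsa))
        · exact Or.inr (Or.inr (Or.inr hsb))
      · intro A hA
        simp only [mem_insert, mem_singleton] at hA
        rcases hA with rfl | rfl | rfl | rfl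
        · right; rw [hv1]; norm_num
        · right; rw [hv2]; norm_num
        · left; exact hsa
        · left; exact hsb
      · intro T hT
        rcases hform T hT with h1 | h1 | h1 <;> rw [h1] <;> intro x hx <;>
          simp only [mem_insert, mem_singleton] at hx ⊢ <;> tauto
      · intro T hT
        rcases hform T hT with h1 | h1 | h1
        · exact ⟨h, psi h, h1, by rw [hv1, hv2]; norm_num⟩
        · exact ⟨sa, h, h1, by rw [hsav, hv1]; norm_num⟩
        · exact ⟨sb, psi h, h1, by rw [hsbv, hv2]; norm_num⟩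
      · intro v hv
        exact hform _ (mem_filter.1 hv).2
      · rw [card_ofT hPa]; exact hwa
      · rw [card_ofT hPb]; exact hwb
    · refine ⟨UU l psi part s Mn, {h, psi h, sa}, valF psi h,
        build _ (card_le_three.trans (by norm_num)) ?_ ?_ ?_ ?_,
        h, hh, rfl, Or.inr ⟨sa, hsa, rfl⟩⟩
      · intro A hA
        simp only [mem_insert, mem_singleton] at hA ⊢
        rcases hA with rfl | rfl | rfl
        · exact Or.inr (Or.inl rfl)
        · left; exact hpsi h
        · rcases hsa with h1 | h1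
          · exact Or.inr (Or.inr h1)
          · rw [h1]; exact Or.inr (Or.inl rfl)
      · intro A hA
        simp only [mem_insert, mem_singleton] at hA
        rcases hA with rfl | rfl | rfl
        · right; rw [hv1]; norm_num
        · right; rw [hv2]; norm_num
        · rcases hsa with h1 | h1
          · left; exact h1
          · right; rw [h1, hv1]; norm_num
      · intro T hT
        rcases hform T hT with h1 | ⟨-, h1 | h1⟩ <;> rw [h1] <;> intro x hx <;>
          simp only [mem_insert, mem_singleton] at hx ⊢ <;> tauto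
      · intro T hT
        rcases hform T hT with h1 | ⟨h2, h1 | h1⟩
        · exact ⟨h, psi h, h1, by rw [hv1, hv2]; norm_num⟩
        · exact ⟨sa, h, h1, by rw [valF_fix (psi := psi) hh hpsi h2, hv1]; norm_num⟩
        · exact ⟨sa, psi h, h1, by rw [valF_fix (psi := psi) hh hpsi h2, hv2]; norm_num⟩

end Pool.H90BX.H74
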