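import Pool.Agent.H74.BX.Ab

set_option autoImplicit false

/-! Counting for the classification (paper h90_be_paper.md, H4). -/

namespace Pool.H90BX.H74

open Finset
open scoped Classical

variable {V : Type} [Fintype V] [DecidableEq V] {r : ℕ} {l : LS V} {psi : Fin r → Fin r}
  {part : V → Lb → Fin r} {s : ℝ}

/-- the irregular partners of v -/
noncomputable def irp (l : LS V) (psi : Fin r → Fin r) (part : V → Lb → Fin r) (v : V) :
    Finset V := univ.filter (fun w : V => w ≠ v ∧ ¬ Reg l psi part v w)

theorem irr_eq (l : LS V) (psi : Fin r → Fin r) (part : V → Lb → Fin r) :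
    irr l psi part = ∑ v, ((irp l psi part v).card : ℝ) := by
  unfold irr irp
  rw [← Nat.cast_sum]
  congr 1
  rw [card_filter, Fintype.sum_prod_type]
  refine sum_congr rfl fun v _ => ?_
  rw [card_filter]
  refine sum_congr rfl fun w _ => ?_
  by_cases h : v = w
  · subst h; simp
  · simp [h, Ne.symm h]

theorem lam_mem_tp (l : LS V) (part : V → Lb → Fin r) (v : V) (i : Lb) :
    lam l part v i ∈ tp l part v := by
  by_cases h : i = mx l v
  · rw [h]; exact mem_insert_self _ _
  · rw [lam_of_ne l part v h, ← lam_md l part v]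
    exact mem_insert_of_mem (mem_singleton_self _)

/-- few vertices are not typical -/
theorem V1_big (hl : Bdd l) (hs : 0 < s) (hirr : irr l psi part ≤ s ^ 2 * nn V ^ 2)
    (htrn : trn l part ≤ s ^ 2 * nn V ^ 2) :
    (((V1 l psi part s)ᶜ).card : ℝ) ≤ 3 * s * nn V := by
  rcases isEmpty_or_nonempty V with hV | ⟨⟨v0⟩⟩
  · have h0 : ((V1 l psi part s)ᶜ) = ∅ := by
      ext v; exact (hV.false v).elim
    rw [h0, card_empty, Nat.cast_zero]
    have : (0 : ℝ) ≤ nn V := by unfold nn; positivity
    positivity
  have hN := NN_ge hl v0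
  have hn := nn_pos hl v0
  have hnN : nn V ≤ 2 * NN V := by rw [nn_eq]; linarith
  let B1 : Finset V := univ.filter (fun v => ¬ Few l psi part s v)
  let B2 : Finset V := univ.filter (fun v => part v (mx l v) ≠ part v (md l v) ∧
    s * NN V < NN V - 2 * cnt l v (mx l v))
  have hsub : (V1 l psi part s)ᶜ ⊆ B1 ∪ B2 := by
    intro v hv
    rw [mem_compl] at hv
    rw [mem_union]
    by_contra hcon
    rw [not_or] at hcon
    apply hv
    refine mem_filter.2 ⟨mem_univ _, ?_, ?_⟩
    · by_contra h1
      exact hcon.1 (mem_filter.2 ⟨mem_univ _, h1⟩)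
    · intro h2
      by_contra h3
      push Not at h3
      exact hcon.2 (mem_filter.2 ⟨mem_univ _, h2, h3⟩)
  have hB1 : (B1.card : ℝ) ≤ s * nn V := by
    have h1 : (B1.card : ℝ) * (s * nn V) ≤ s ^ 2 * nn V ^ 2 := by
      refine le_trans ?_ hirr
      rw [irr_eq, ← nsmul_eq_mul]
      refine le_trans (card_nsmul_le_sum B1 (fun v => ((irp l psi part v).card : ℝ)) _ ?_) ?_
      · intro v hv
        have h2 := (mem_filter.1 hv).2
        unfold Few at h2
        push Not at h2
        exact h2.le
      · exact sum_le_sum_of_subset_of_nonneg (subset_univ _) (fun _ _ _ => Nat.cast_nonneg _)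
    have h2 : 0 < s * nn V := mul_pos hs hn
    have h3 : (B1.card : ℝ) * (s * nn V) ≤ (s * nn V) * (s * nn V) := by
      calc (B1.card : ℝ) * (s * nn V) ≤ s ^ 2 * nn V ^ 2 := h1
        _ = (s * nn V) * (s * nn V) := by ring
    exact le_of_mul_le_mul_right h3 h2
  have hB2 : (B2.card : ℝ) ≤ 2 * s * nn V := by
    have h0 : ∀ v, (0 : ℝ) ≤ (if part v (mx l v) ≠ part v (md l v) then
        NN V - 2 * cnt l v (mx l v) else 0) := by
      intro v
      split_ifs
      · have := two_cntR hl v (mx l v); linarith
      · exact le_rfl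
    have h1 : (B2.card : ℝ) * (s * NN V) ≤ s ^ 2 * nn V ^ 2 := by
      refine le_trans ?_ htrn
      unfold trn
      rw [← nsmul_eq_mul]
      refine le_trans (card_nsmul_le_sum B2 (fun v => (if part v (mx l v) ≠ part v (md l v) then
        NN V - 2 * (cnt l v (mx l v) : ℝ) else 0)) _ ?_) ?_
      · intro v hv
        obtain ⟨h2, h3⟩ := (mem_filter.1 hv).2
        rw [if_pos h2]
        exact h3.le
      · exact sum_le_sum_of_subset_of_nonneg (subset_univ _) (fun v _ _ => h0 v)
    have h2 : 0 < s * NN V := mul_pos hs (by linarith)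
    have h3 : (B2.card : ℝ) * (s * NN V) ≤ (2 * s * nn V) * (s * NN V) := by
      calc (B2.card : ℝ) * (s * NN V) ≤ s ^ 2 * nn V ^ 2 := h1
        _ = (s ^ 2 * nn V) * nn V := by ring
        _ ≤ (s ^ 2 * nn V) * (2 * NN V) := mul_le_mul_of_nonneg_left hnN (by positivity)
        _ = (2 * s * nn V) * (s * NN V) := by ring
    exact le_of_mul_le_mul_right h3 h2
  have h4 : (((V1 l psi part s)ᶜ).card : ℝ) ≤ B1.card + B2.card := by
    have := (card_le_card hsub).trans (card_union_le B1 B2)
    exact_mod_cast this
  linarith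

/-- number of vertices of V1 with type T -/
noncomputable def nT (l : LS V) (psi : Fin r → Fin r) (part : V → Lb → Fin r) (s : ℝ)
    (T : Finset (Fin r)) : ℝ :=
  (((V1 l psi part s).filter (fun v => tp l part v = T)).card : ℝ)

/-- the present types -/
noncomputable def Pr (l : LS V) (psi : Fin r → Fin r) (part : V → Lb → Fin r) (s : ℝ) :
    Finset (Finset (Fin r)) :=
  univ.filter (fun T => 10 * s * nn V ≤ nT l psi part s T)

/-- number of vertices of V1 with type in S -/
theorem card_types (S : Finset (Finset (Fin r))) :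
    (((V1 l psi part s).filter (fun v => tp l part v ∈ S)).card : ℝ) =
      ∑ T ∈ S, nT l psi part s T := by
  unfold nT
  rw [← Nat.cast_sum]
  congr 1
  have h0 := card_eq_sum_card_fiberwise (s := (V1 l psi part s).filter (fun v => tp l part v ∈ S))
    (f := fun v => tp l part v) (t := S) (fun v hv => (mem_filter.1 (mem_coe.1 hv)).2)
  rw [h0]
  refine sum_congr rfl fun T hT => ?_
  congr 1
  ext v
  simp only [mem_filter]
  constructor
  · rintro ⟨⟨h1, _⟩, h2⟩
    exact ⟨h1, h2⟩
  · rintro ⟨h1, h2⟩
    exact ⟨⟨h1, h2 ▸ hT⟩, h2⟩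

theorem few_of_V1 {v : V} (hv : v ∈ V1 l psi part s) :
    ((irp l psi part v).card : ℝ) ≤ s * nn V := (mem_filter.1 hv).2.1

/-- (A) compatibility of present types -/
theorem compat (hs : 0 < s) (hsn : 1 ≤ s * nn V) {T T' : Finset (Fin r)}
    (hT : T ∈ Pr l psi part s) (hT' : T' ∈ Pr l psi part s) : ∃ a ∈ T, psi a ∈ T' := by
  have h1 := (mem_filter.1 hT).2
  have h2 := (mem_filter.1 hT').2
  unfold nT at h1 h2
  have h3 : ((V1 l psi part s).filter (fun v => tp l part v = T)).Nonempty := by
    rw [← card_pos]
    have : (0 : ℝ) < (((V1 l psi part s).filter (fun v => tp l part v = T)).card : ℝ) := by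
      linarith
    exact_mod_cast this
  obtain ⟨v, hv⟩ := h3
  obtain ⟨hv1, hv2⟩ := mem_filter.1 hv
  have h4 : ∃ w ∈ (V1 l psi part s).filter (fun v => tp l part v = T'),
      w ∉ insert v (irp l psi part v) := by
    by_contra hcon
    push Not at hcon
    have h5 := card_le_card (show (V1 l psi part s).filter (fun v => tp l part v = T') ⊆
      insert v (irp l psi part v) from hcon)
    have h6 := h5.trans (card_insert_le v _)
    have h7 : (((V1 l psi part s).filter (fun v => tp l part v = T')).card : ℝ) ≤
        (irp l psi part v).card + 1 := by exact_mod_cast h6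
    have h8 := few_of_V1 hv1
    linarith
  obtain ⟨w, hw, hwn⟩ := h4
  obtain ⟨hw1, hw2⟩ := mem_filter.1 hw
  rw [mem_insert, not_or] at hwn
  have hreg : Reg l psi part v w := by
    by_contra h
    exact hwn.2 (mem_filter.2 ⟨mem_univ _, hwn.1, h⟩)
  refine ⟨lam l part v (l v w), hv2 ▸ lam_mem_tp l part v _, ?_⟩
  unfold Reg at hreg
  rw [← hreg, ← hw2]
  exact lam_mem_tp l part w _

/-- (B) for a typical vertex v whose two classes are different -/
theorem half_at (hl : Bdd l) (hs : 0 < s) (hs1 : s ≤ 1)
    (hsn : 1 ≤ s * nn V) (hirr : irr l psi part ≤ s ^ 2 * nn V ^ 2)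
    (htrn : trn l part ≤ s ^ 2 * nn V ^ 2) {v : V} (hv : v ∈ V1 l psi part s) {a : Fin r}
    (hne : part v (mx l v) ≠ part v (md l v)) (ha : a ∈ tp l part v) :
    (1 / 2 - 5 * s) * nn V ≤
      (((V1 l psi part s).filter (fun w => psi a ∈ tp l part w)).card : ℝ) := by
  have hN := NN_ge hl v
  have hn := nn_pos hl v
  obtain ⟨-, hv1, hv2⟩ := mem_filter.1 hv
  have hv2' := hv2 hne
  let C : Finset V := univ.filter (fun w => w ≠ v ∧ lam l part v (l v w) = a)
  -- C is large
  have hC : (1 - s) * NN V / 2 ≤ (C.card : ℝ) := by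
    rcases mem_insert.1 ha with h1 | h1
    · have h2 : cls l v (mx l v) ⊆ C := by
        intro w hw
        obtain ⟨h3, h4⟩ := mem_cls.1 hw
        exact mem_filter.2 ⟨mem_univ _, h3, by rw [h4, h1]⟩
      have h3 : (cnt l v (mx l v) : ℝ) ≤ C.card := by exact_mod_cast card_le_card h2
      linarith
    · have h1' : a = part v (mx l v) := by rw [mem_singleton.1 h1, lam_md]
      have h2 : (univ.erase v) \ cls l v (mx l v) ⊆ C := by
        intro w hw
        obtain ⟨h3, h4⟩ := mem_sdiff.1 hw
        have h5 := (mem_erase.1 h3).1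
        have h6 : l v w ≠ mx l v := fun h => h4 (mem_cls.2 ⟨h5, h⟩)
        exact mem_filter.2 ⟨mem_univ _, h5, by rw [lam_of_ne l part v h6, h1']⟩
      have h3 : (cls l v (mx l v)) ⊆ univ.erase v := fun w hw =>
        mem_erase.2 ⟨(mem_cls.1 hw).1, mem_univ _⟩
      have h4 := card_sdiff_of_subset h3
      have h5 := card_le_card h2
      have h6 := card_le_card h3
      rw [card_erase_of_mem (mem_univ v), card_univ] at h4 h6
      have h7 : (Fintype.card V : ℝ) - 1 ≤ (C.card : ℝ) + cnt l v (mx l v) := by
        have h8 : 0 < Fintype.card V := Fintype.card_pos_iff.2 ⟨v⟩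
        have h9 : Fintype.card V ≤ C.card + cnt l v (mx l v) + 1 := by
          unfold cnt
          omega
        have h10 : (Fintype.card V : ℝ) ≤ (C.card : ℝ) + cnt l v (mx l v) + 1 := by
          exact_mod_cast h9
        linarith
      have h8 := two_cntR hl v (mx l v)
      have h9 : NN V ≤ (C.card : ℝ) + cnt l v (mx l v) := h7
      have h10 : 0 ≤ s * NN V := by
        have : 0 ≤ NN V := by linarith
        positivity
      nlinarith
  have hCsub : C ⊆ (V1 l psi part s).filter (fun w => psi a ∈ tp l part w) ∪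
      (irp l psi part v ∪ (V1 l psi part s)ᶜ) := by
    intro w hw
    obtain ⟨-, h1, h2⟩ := mem_filter.1 hw
    by_cases h3 : Reg l psi part v w
    · by_cases h4 : w ∈ V1 l psi part s
      · refine mem_union_left _ (mem_filter.2 ⟨h4, ?_⟩)
        unfold Reg at h3
        rw [h2] at h3
        rw [← h3]
        exact lam_mem_tp l part w _
      · exact mem_union_right _ (mem_union_right _ (mem_compl.2 h4))
    · exact mem_union_right _ (mem_union_left _ (mem_filter.2 ⟨mem_univ _, h1, h3⟩))
  have h1 : (C.card : ℝ) ≤ (((V1 l psi part s).filter (fun w => psi a ∈ tp l part w)).card : ℝ) +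
      ((irp l psi part v).card + (((V1 l psi part s)ᶜ).card : ℝ)) := by
    have h2 := (card_le_card hCsub).trans (card_union_le _ _)
    have h3 := h2.trans (Nat.add_le_add_left (card_union_le (irp l psi part v)
      ((V1 l psi part s)ᶜ)) _)
    exact_mod_cast h3
  have h2 := few_of_V1 hv
  have h3 := V1_big hl hs hirr htrn
  have h4 : nn V = NN V + 1 := nn_eq V
  nlinarith

/-- vertices of V1 whose type is not present -/
theorem absent (hs : 0 < s) :
    (((V1 l psi part s).filter (fun v => tp l part v ∉ Pr l psi part s)).card : ℝ) ≤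
      10 * (r : ℝ) ^ 2 * s * nn V := by
  have hn : 0 ≤ nn V := by unfold nn; positivity
  have h1 : ((V1 l psi part s).filter (fun v => tp l part v ∉ Pr l psi part s)).card =
      ∑ p : Fin r × Fin r, (((V1 l psi part s).filter (fun v => tp l part v ∉ Pr l psi part s)).filter
        (fun v => (lam l part v (mx l v), lam l part v (md l v)) = p)).card :=
    card_eq_sum_card_fiberwise (fun v _ => mem_coe.2 (mem_univ _))
  have h2 : ∀ p : Fin r × Fin r, (((((V1 l psi part s).filter
      (fun v => tp l part v ∉ Pr l psi part s)).filter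
        (fun v => (lam l part v (mx l v), lam l part v (md l v)) = p)).card : ℕ) : ℝ) ≤
        10 * s * nn V := by
    intro p
    by_cases hp : ({p.1, p.2} : Finset (Fin r)) ∈ Pr l psi part s
    · have h3 : (((V1 l psi part s).filter (fun v => tp l part v ∉ Pr l psi part s)).filter
          (fun v => (lam l part v (mx l v), lam l part v (md l v)) = p)) = ∅ := by
        rw [filter_eq_empty_iff]
        intro v hv hvp
        apply (mem_filter.1 hv).2
        have h4 : tp l part v = {p.1, p.2} := by
          unfold tp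
          rw [← hvp]
        rw [h4]
        exact hp
      rw [h3, card_empty, Nat.cast_zero]
      positivity
    · have h3 : (((V1 l psi part s).filter (fun v => tp l part v ∉ Pr l psi part s)).filter
          (fun v => (lam l part v (mx l v), lam l part v (md l v)) = p)) ⊆
          (V1 l psi part s).filter (fun v => tp l part v = {p.1, p.2}) := by
        intro v hv
        obtain ⟨h4, h5⟩ := mem_filter.1 hv
        refine mem_filter.2 ⟨(mem_filter.1 h4).1, ?_⟩
        unfold tp
        rw [← h5]
      have h4 : ¬ (10 * s * nn V ≤ nT l psi part s {p.1, p.2}) := fun h =>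
        hp (mem_filter.2 ⟨mem_univ _, h⟩)
      push Not at h4
      have h5 : ((((((V1 l psi part s).filter
        (fun v => tp l part v ∉ Pr l psi part s)).filter
        (fun v => (lam l part v (mx l v), lam l part v (md l v)) = p)).card : ℕ)) : ℝ) ≤
        nT l psi part s {p.1, p.2} := by
        unfold nT
        exact_mod_cast card_le_card h3
      linarith
  rw [h1, Nat.cast_sum]
  refine (sum_le_sum (fun p _ => h2 p)).trans ?_
  rw [sum_const, card_univ, Fintype.card_prod, Fintype.card_fin, nsmul_eq_mul]
  push_cast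
  apply le_of_eq
  ring

end Pool.H90BX.H74
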